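import Mathlib

/-!
# MP_f95752: largest induced `d`-degenerate subgraphs of `k`-degenerate graphs

Let `G_k` be the graph on `2 k + 1` vertices formed by a clique `A` on `k` vertices, an independent
set `B` of `k` vertices joined completely to `A`, and one more vertex joined completely to `B`. It
has degeneracy `k`, and after the deletion of any single vertex there still remains a subgraph of
minimum degree at least `k`. Hence `α_{k-1}(k) ≤ (2 k - 1) / (2 k + 1) < k / (k + 1)` for `k ≥ 2`.
-/

namespace Pool.Agent.Results.MP_f95752_co.SevenVertices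

open SimpleGraph

/-- `G` is `d`-degenerate: every (nonempty) subgraph has a vertex of degree at most `d` in it. -/
def IsDegenerate {V : Type} (G : SimpleGraph V) (d : ℕ) : Prop :=
  ∀ H : G.Subgraph, H.verts.Nonempty → ∃ v ∈ H.verts, (H.neighborSet v).ncard ≤ d

/-- `G` has degeneracy exactly `k`. -/
def HasDegeneracy {V : Type} (G : SimpleGraph V) (k : ℕ) : Prop :=
  IsLeast {d | IsDegenerate G d} k

/-- `α_d(G)`, the largest number of vertices of an induced `d`-degenerate subgraph. -/
noncomputable def alpha {V : Type} (d : ℕ) (G : SimpleGraph V) : ℕ :=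
  sSup {m | ∃ T : Set V, IsDegenerate (G.induce T) d ∧ T.ncard = m}

/-- `α_d(k)`, the infimum of `α_d(G) / |V(G)|` over all finite graphs of degeneracy `k`. -/
noncomputable def alphaInf (d k : ℕ) : ℝ :=
  sInf {x | ∃ (V : Type) (_ : Finite V) (G : SimpleGraph V),
    HasDegeneracy G k ∧ x = alpha d G / Nat.card V}

/-- A set of vertices in which all degrees are large. -/
theorem not_degenerate {V : Type} [Fintype V] [DecidableEq V] (G : SimpleGraph V)
    [DecidableRel G.Adj] {d : ℕ} {T : Set V} (S : Finset V) (hST : ∀ v ∈ S, v ∈ T)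
    (hS : S.Nonempty) (h : ∀ v ∈ S, d < (S.filter (G.Adj v)).card) :
    ¬ IsDegenerate (G.induce T) d := by
  intro hd
  obtain ⟨v0, hv0⟩ := hS
  obtain ⟨v, hv, hcard⟩ := hd ((⊤ : (G.induce T).Subgraph).induce {x | (x : V) ∈ S})
    ⟨⟨v0, hST v0 hv0⟩, hv0⟩
  have hv' : (v : V) ∈ S := hv
  have h1 := h v hv'
  have h2 : Subtype.val '' (((⊤ : (G.induce T).Subgraph).induce
      {x | (x : V) ∈ S}).neighborSet v) = ((S.filter (G.Adj v) : Finset V) : Set V) := by
    ext u
    constructor
    · rintro ⟨⟨u', hu'⟩, h3, rfl⟩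
      rw [Subgraph.mem_neighborSet, Subgraph.induce_adj] at h3
      rw [Finset.mem_coe, Finset.mem_filter]
      exact ⟨h3.2.1, h3.2.2⟩
    · intro h3
      rw [Finset.mem_coe, Finset.mem_filter] at h3
      refine ⟨⟨u, hST u h3.1⟩, ?_, rfl⟩
      rw [Subgraph.mem_neighborSet, Subgraph.induce_adj]
      exact ⟨hv', h3.1, h3.2⟩
  rw [← Set.ncard_image_of_injective _ Subtype.val_injective, h2, Set.ncard_coe_finset] at hcard
  omega

/-- The vertices: the clique, the independent set and the last vertex. -/
abbrev VV (k : ℕ) := Fin k ⊕ (Fin k ⊕ Unit)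

/-- The adjacency relation. -/
def adj {k : ℕ} : VV k → VV k → Prop
  | .inl i, .inl j => i ≠ j
  | .inl _, .inr (.inl _) => True
  | .inr (.inl _), .inl _ => True
  | .inr (.inl _), .inr (.inr _) => True
  | .inr (.inr _), .inr (.inl _) => True
  | _, _ => False

/-- The graph `G_k`. -/
def gr (k : ℕ) : SimpleGraph (VV k) where
  Adj := adj
  symm := ⟨by
    rintro (i | i | i) (j | j | j) h
    · exact Ne.symm h
    all_goals exact h⟩
  loopless := ⟨by
    rintro (i | i | i) h
    · exact h rfl
    all_goals exact h⟩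

theorem gr_degenerate (k : ℕ) : IsDegenerate (gr k) k := by
  intro H hH
  -- neighbours inside a given set of `k` vertices
  have key : ∀ v ∈ H.verts, ∀ f : Fin k → VV k, (∀ u ∈ H.neighborSet v, ∃ i, f i = u) →
      ∃ v ∈ H.verts, (H.neighborSet v).ncard ≤ k := by
    intro v hv f hf
    refine ⟨v, hv, ?_⟩
    have h1 : H.neighborSet v ⊆ f '' Set.univ := by
      intro u hu
      obtain ⟨i, hi⟩ := hf u hu
      exact ⟨i, trivial, hi⟩
    refine (Set.ncard_le_ncard h1 (Set.toFinite _)).trans
      ((Set.ncard_image_le Set.finite_univ).trans ?_)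
    rw [Set.ncard_univ]
    simp
  by_cases hc : (Sum.inr (Sum.inr ()) : VV k) ∈ H.verts
  · refine key _ hc (fun i => .inr (.inl i)) ?_
    intro u hu
    have h1 := H.adj_sub hu
    rcases u with i | i | i
    · exact absurd h1 id
    · exact ⟨i, rfl⟩
    · exact absurd h1 id
  · by_cases hb : ∃ b : Fin k, (Sum.inr (Sum.inl b) : VV k) ∈ H.verts
    · obtain ⟨b, hb⟩ := hb
      refine key _ hb (fun i => .inl i) ?_
      intro u hu
      have h1 := H.adj_sub hu
      rcases u with i | i | i
      · exact ⟨i, rfl⟩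
      · exact absurd h1 id
      · exact absurd (H.edge_vert (H.symm.symm _ _ hu)) hc
    · push Not at hb
      obtain ⟨v, hv⟩ := hH
      refine key v hv (fun i => .inl i) ?_
      intro u hu
      have h1 := H.edge_vert (H.symm.symm _ _ hu)
      rcases u with i | i | i
      · exact ⟨i, rfl⟩
      · exact absurd h1 (hb i)
      · exact absurd h1 hc

/-- After the deletion of one vertex there is still a subgraph of minimum degree at least `k`. -/
theorem gr_minus (k : ℕ) (hk : 2 ≤ k) {T : Set (VV k)} (v : VV k) (hT : ∀ u, u ≠ v → u ∈ T) :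
    ¬ IsDegenerate ((gr k).induce T) (k - 1) := by
  classical
  have hcard : ∀ (S : Finset (VV k)) (w : VV k) (U : Finset (VV k)), k ≤ U.card →
      (∀ u ∈ U, u ∈ S ∧ (gr k).Adj w u) → k - 1 < (S.filter ((gr k).Adj w)).card := by
    intro S w U hU h
    have h1 : U ⊆ S.filter ((gr k).Adj w) := fun u hu => Finset.mem_filter.mpr (h u hu)
    have h2 := Finset.card_le_card h1
    omega
  -- the sets `A` and `B`
  let A : Finset (VV k) := Finset.univ.image Sum.inl
  let B : Finset (VV k) := Finset.univ.image (fun i => Sum.inr (Sum.inl i))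
  have cA : A.card = k := by
    rw [Finset.card_image_of_injective _ Sum.inl_injective]; simp
  have cB : B.card = k := by
    rw [Finset.card_image_of_injective _ (fun i j h => by simpa using h)]; simp
  have mA : ∀ u, u ∈ A → ∃ i, u = Sum.inl i := by
    intro u hu
    obtain ⟨i, -, rfl⟩ := Finset.mem_image.mp hu
    exact ⟨i, rfl⟩
  have mB : ∀ u, u ∈ B → ∃ i, u = Sum.inr (Sum.inl i) := by
    intro u hu
    obtain ⟨i, -, rfl⟩ := Finset.mem_image.mp hu
    exact ⟨i, rfl⟩
  have hA : ∀ i, Sum.inl i ∈ A := fun i => Finset.mem_image_of_mem _ (Finset.mem_univ i)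
  have hB : ∀ i, Sum.inr (Sum.inl i) ∈ B := fun i =>
    Finset.mem_image_of_mem (fun i => Sum.inr (Sum.inl i)) (Finset.mem_univ i)
  rcases v with a | b | c
  · -- a vertex of the clique is deleted
    refine not_degenerate (gr k) (Finset.univ.erase (Sum.inl a)) (fun u hu =>
      hT u (Finset.ne_of_mem_erase hu)) ⟨Sum.inr (Sum.inr ()), by simp⟩ ?_
    intro w hw
    rcases w with i | i | i
    · refine hcard _ _ B cB.ge ?_
      intro u hu
      obtain ⟨j, rfl⟩ := mB u hu
      exact ⟨by simp, trivial⟩
    · refine hcard _ _ (insert (Sum.inr (Sum.inr ())) (A.erase (Sum.inl a))) ?_ ?_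
      · rw [Finset.card_insert_of_notMem, Finset.card_erase_of_mem (hA a), cA]
        · omega
        · intro h
          obtain ⟨j, hj⟩ := mA _ (Finset.mem_of_mem_erase h)
          simp at hj
      · intro u hu
        rcases Finset.mem_insert.mp hu with rfl | hu
        · exact ⟨by simp, trivial⟩
        · obtain ⟨j, rfl⟩ := mA u (Finset.mem_of_mem_erase hu)
          exact ⟨Finset.mem_erase.mpr ⟨Finset.ne_of_mem_erase hu, Finset.mem_univ _⟩, trivial⟩
    · refine hcard _ _ B cB.ge ?_
      intro u hu
      obtain ⟨j, rfl⟩ := mB u hu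
      exact ⟨by simp, trivial⟩
  · -- a vertex of the independent set is deleted
    refine not_degenerate (gr k) (A ∪ B.erase (Sum.inr (Sum.inl b))) ?_ ?_ ?_
    · intro u hu
      apply hT
      rcases Finset.mem_union.mp hu with hu | hu
      · obtain ⟨j, rfl⟩ := mA u hu
        simp
      · exact Finset.ne_of_mem_erase hu
    · exact ⟨Sum.inl ⟨0, by omega⟩, Finset.mem_union_left _ (hA _)⟩
    · intro w hw
      rcases Finset.mem_union.mp hw with hw | hw
      · obtain ⟨i, rfl⟩ := mA w hw
        refine hcard _ _ (A.erase (Sum.inl i) ∪ B.erase (Sum.inr (Sum.inl b))) ?_ ?_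
        · rw [Finset.card_union_of_disjoint, Finset.card_erase_of_mem (hA i),
            Finset.card_erase_of_mem (hB b), cA, cB]
          · omega
          · rw [Finset.disjoint_left]
            intro u h1 h2
            obtain ⟨j, rfl⟩ := mA u (Finset.mem_of_mem_erase h1)
            obtain ⟨j', hj'⟩ := mB _ (Finset.mem_of_mem_erase h2)
            simp at hj'
        · intro u hu
          rcases Finset.mem_union.mp hu with hu | hu
          · obtain ⟨j, rfl⟩ := mA u (Finset.mem_of_mem_erase hu)
            refine ⟨Finset.mem_union_left _ (hA j), ?_⟩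
            intro hij
            apply Finset.ne_of_mem_erase hu
            rw [hij]
          · refine ⟨Finset.mem_union_right _ hu, ?_⟩
            obtain ⟨j, rfl⟩ := mB u (Finset.mem_of_mem_erase hu)
            trivial
      · obtain ⟨i, rfl⟩ := mB w (Finset.mem_of_mem_erase hw)
        refine hcard _ _ A cA.ge ?_
        intro u hu
        refine ⟨Finset.mem_union_left _ hu, ?_⟩
        obtain ⟨j, rfl⟩ := mA u hu
        trivial
  · -- the last vertex is deleted
    refine not_degenerate (gr k) (A ∪ B) ?_ ?_ ?_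
    · intro u hu
      apply hT
      rcases Finset.mem_union.mp hu with hu | hu
      · obtain ⟨j, rfl⟩ := mA u hu
        simp
      · obtain ⟨j, rfl⟩ := mB u hu
        simp
    · exact ⟨Sum.inl ⟨0, by omega⟩, Finset.mem_union_left _ (hA _)⟩
    · intro w hw
      rcases Finset.mem_union.mp hw with hw | hw
      · obtain ⟨i, rfl⟩ := mA w hw
        refine hcard _ _ B cB.ge ?_
        intro u hu
        refine ⟨Finset.mem_union_right _ hu, ?_⟩
        obtain ⟨j, rfl⟩ := mB u hu
        trivial
      · obtain ⟨i, rfl⟩ := mB w hw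
        refine hcard _ _ A cA.ge ?_
        intro u hu
        refine ⟨Finset.mem_union_left _ hu, ?_⟩
        obtain ⟨j, rfl⟩ := mA u hu
        trivial

theorem card_VV (k : ℕ) : Nat.card (VV k) = 2 * k + 1 := by
  rw [Nat.card_eq_fintype_card]
  simp
  ring

theorem alpha_le (k : ℕ) (hk : 2 ≤ k) : alpha (k - 1) (gr k) ≤ 2 * k - 1 := by
  classical
  apply csSup_le'
  rintro m ⟨T, hT, rfl⟩
  by_contra hcon
  push Not at hcon
  -- at most one vertex is missing
  have h1 : (Tᶜ).ncard ≤ 1 := by
    have := Set.ncard_add_ncard_compl T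
    rw [card_VV] at this
    omega
  obtain ⟨v, hv⟩ : ∃ v, ∀ u, u ≠ v → u ∈ T := by
    rcases (Tᶜ).eq_empty_or_nonempty with h | ⟨v, hv⟩
    · refine ⟨Sum.inr (Sum.inr ()), fun u _ => ?_⟩
      by_contra hu
      have : u ∈ Tᶜ := hu
      rw [h] at this
      exact this
    · refine ⟨v, fun u hu => ?_⟩
      by_contra hu'
      exact hu ((Set.ncard_le_one_iff (Set.toFinite _)).mp h1 hu' hv)
  exact gr_minus k hk v hv hT

theorem gr_hasDegeneracy (k : ℕ) (hk : 2 ≤ k) : HasDegeneracy (gr k) k := by
  classical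
  refine ⟨gr_degenerate k, fun d hd => ?_⟩
  by_contra hlt
  push Not at hlt
  -- the whole graph would be `(k - 1)`-degenerate
  have h1 : IsDegenerate ((gr k).induce Set.univ) (k - 1) := by
    intro H hH
    let e : (gr k).induce Set.univ ≃g gr k := induceUnivIso (gr k)
    let H' : (gr k).Subgraph := H.map e.toHom
    obtain ⟨v, hv⟩ := hH
    obtain ⟨w, ⟨x, hx, hxw⟩, hw⟩ := hd H' ⟨e v, v, hv, rfl⟩
    refine ⟨x, hx, ?_⟩
    have h2 : (H.neighborSet x).ncard ≤ (H'.neighborSet w).ncard := by
      rw [← Set.ncard_image_of_injective (H.neighborSet x) e.injective]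
      apply Set.ncard_le_ncard _ (Set.toFinite _)
      rintro _ ⟨y, hy, rfl⟩
      rw [← hxw]
      exact ⟨x, y, hy, rfl, rfl⟩
    omega
  exact gr_minus k hk (Sum.inr (Sum.inr ())) (fun u _ => trivial) h1

/-- **Negative answer to Q1.** For every `k ≥ 2` there is a graph of degeneracy `k` on `2 k + 1`
vertices whose largest induced `(k - 1)`-degenerate subgraph has at most `2 k - 1` vertices.
Therefore `α_{k-1}(k) ≤ (2 k - 1) / (2 k + 1) < k / (k + 1)`, so the proposed formula fails for
every `k ≥ 3` with `d = k - 1`. -/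
theorem result :
    (∀ k : ℕ, 2 ≤ k → ∃ (V : Type) (_ : Finite V) (G : SimpleGraph V), Nat.card V = 2 * k + 1 ∧
      HasDegeneracy G k ∧ alpha (k - 1) G ≤ 2 * k - 1) ∧
    (∀ k : ℕ, 2 ≤ k → alphaInf (k - 1) k ≤ (2 * k - 1) / (2 * k + 1) ∧
      ((2 * k - 1) / (2 * k + 1) : ℝ) < k / (k + 1)) ∧
    ¬ ∀ k d : ℕ, 3 ≤ k → d < k → alphaInf d k = ((d : ℝ) + 1) / (k + 1) := by
  have h2 : ∀ k : ℕ, 2 ≤ k → alphaInf (k - 1) k ≤ (2 * k - 1) / (2 * k + 1) ∧
      ((2 * k - 1) / (2 * k + 1) : ℝ) < k / (k + 1) := by
    intro k hk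
    constructor
    · have h3 : alphaInf (k - 1) k ≤ alpha (k - 1) (gr k) / Nat.card (VV k) := by
        apply csInf_le
        · refine ⟨0, ?_⟩
          rintro x ⟨V, _, G, _, rfl⟩
          positivity
        · exact ⟨VV k, inferInstance, gr k, gr_hasDegeneracy k hk, rfl⟩
      refine h3.trans ?_
      rw [card_VV]
      push_cast
      apply div_le_div_of_nonneg_right _ (by positivity)
      have h4 : (alpha (k - 1) (gr k) : ℝ) ≤ ((2 * k - 1 : ℕ) : ℝ) := by
        exact_mod_cast alpha_le k hk
      rw [Nat.cast_sub (by omega)] at h4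
      push_cast at h4
      exact h4
    · rw [div_lt_div_iff₀ (by positivity) (by positivity)]
      nlinarith
  refine ⟨fun k hk => ⟨VV k, inferInstance, gr k, card_VV k, gr_hasDegeneracy k hk,
    alpha_le k hk⟩, h2, fun h => ?_⟩
  have h3 := h 3 2 le_rfl (by norm_num)
  obtain ⟨h4, h5⟩ := h2 3 (by norm_num)
  norm_num at h3 h4
  rw [h3] at h4
  norm_num at h4

end Pool.Agent.Results.MP_f95752_co.SevenVertices
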